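import Pool.Agent.E8helper12.PF.Main

set_option autoImplicit false

/-! Arithmetic for the corollaries (helper12). -/

namespace Pool.Agent.E8helper12.PF

/-- polynomial bounds as soon as `n ≥ (log 2K) ^ ε` -/
theorem arith_poly {K ε : ℝ} {n : ℕ} (hK : 1 ≤ K) (hε : 0 < ε) (hε1 : ε ≤ 1) (hn : 2 ≤ n)
    (hnε : Real.log (2 * K) ^ ε ≤ n) :
    K * Real.exp (37000 * ((1 + Real.log K / Real.log n) *
        (1 + Real.log (1 + Real.log K / Real.log n)))) ≤ (2 * K) ^ (400000 / ε) := by
  have hK0 : 0 < K := by linarith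
  obtain ⟨κ, hκ⟩ : ∃ κ : ℝ, κ = Real.log (2 * K) := ⟨_, rfl⟩
  obtain ⟨L, hL⟩ : ∃ L : ℝ, L = 1 + Real.log K / Real.log n := ⟨_, rfl⟩
  rw [← hL]
  rw [← hκ] at hnε
  have hlog2a : 0.693 < Real.log 2 := by have := Real.log_two_gt_d9; linarith
  have hlogK : 0 ≤ Real.log K := Real.log_nonneg hK
  have hκK : κ = Real.log 2 + Real.log K := by
    rw [hκ, Real.log_mul (by norm_num) hK0.ne']
  have hκ0 : 0.693 < κ := by linarith
  have hn2 : (2 : ℝ) ≤ n := by exact_mod_cast hn
  have hlogn : Real.log 2 ≤ Real.log n := Real.log_le_log (by norm_num) hn2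
  have hlogn0 : 0 < Real.log n := by linarith
  have hL1 : 1 ≤ L := by
    rw [hL]
    have : 0 ≤ Real.log K / Real.log n := div_nonneg hlogK hlogn0.le
    linarith
  have hlogL : 0 ≤ Real.log L := Real.log_nonneg hL1
  have hL29 : L ≤ 2.9 * κ := by
    have h1 : Real.log K / Real.log n ≤ κ / 0.693 := by
      apply div_le_div₀ (by linarith) (by linarith) (by norm_num) (by linarith)
    rw [hL]
    have h2 : κ / 0.693 ≤ 1.4431 * κ := by
      rw [div_le_iff₀ (by norm_num)]; nlinarith
    nlinarith
  have hlog29 : Real.log 2.9 ≤ 1.08 := by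
    rw [Real.log_le_iff_le_exp (by norm_num)]
    have h5 : (2.7182818283 : ℝ) < Real.exp 1 := Real.exp_one_gt_d9
    have h6 : Real.exp (1.08 : ℝ) ^ 25 = Real.exp 1 ^ 27 := by
      rw [← Real.exp_nat_mul, ← Real.exp_nat_mul]; norm_num
    have h7 : (2.9 : ℝ) ^ 25 ≤ Real.exp 1 ^ 27 := by
      calc (2.9 : ℝ) ^ 25 ≤ 2.718 ^ 27 := by norm_num
        _ ≤ Real.exp 1 ^ 27 := by
          apply pow_le_pow_left₀ (by norm_num); linarith
    rw [← h6] at h7
    exact le_of_pow_le_pow_left₀ (by norm_num) (Real.exp_pos _).le h7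
  have hlogL2 : Real.log L ≤ 1.08 + Real.log κ := by
    have h1 : Real.log L ≤ Real.log (2.9 * κ) := Real.log_le_log (by linarith) hL29
    rw [Real.log_mul (show (2.9 : ℝ) ≠ 0 by norm_num) (show κ ≠ 0 by linarith)] at h1
    linarith
  have hmain : L * (1 + Real.log L) ≤ 10 * κ / ε := by
    rw [le_div_iff₀ hε]
    rcases le_or_gt κ (Real.exp 1) with h | h
    · have h1 : Real.log κ ≤ 1 := by
        rw [Real.log_le_iff_le_exp (by linarith)]; exact h
      calc L * (1 + Real.log L) * ε ≤ (2.9 * κ) * (1 + (1.08 + 1)) * 1 := by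
            gcongr
            linarith
        _ ≤ 10 * κ := by nlinarith
    · have h1 : 1 < Real.log κ := by
        rw [Real.lt_log_iff_exp_lt (by linarith)]; exact h
      have h2 : ε * Real.log κ ≤ Real.log n := by
        rw [← Real.log_rpow (by linarith)]
        exact Real.log_le_log (Real.rpow_pos_of_pos (by linarith) _) hnε
      have h3 : Real.log κ ≤ κ := by
        have := Real.log_le_sub_one_of_pos (show 0 < κ by linarith)
        linarith
      have h4 : L * (ε * Real.log κ) ≤ 2 * κ := by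
        have h5 : Real.log K / Real.log n * (ε * Real.log κ) ≤ κ := by
          calc Real.log K / Real.log n * (ε * Real.log κ) ≤ Real.log K / Real.log n * Real.log n := by
                gcongr
            _ = Real.log K := by field_simp
            _ ≤ κ := by linarith
        have h6 : ε * Real.log κ ≤ κ := by
          calc ε * Real.log κ ≤ 1 * κ := by gcongr
            _ = κ := one_mul _
        rw [hL, add_mul, one_mul]
        linarith
      calc L * (1 + Real.log L) * ε ≤ L * (5 * Real.log κ) * ε := by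
            gcongr
            linarith
        _ = 5 * (L * (ε * Real.log κ)) := by ring
        _ ≤ 5 * (2 * κ) := by gcongr
        _ = 10 * κ := by ring
  rw [Real.rpow_def_of_pos (by linarith), ← hκ]
  calc K * Real.exp (37000 * (L * (1 + Real.log L)))
      = Real.exp (Real.log K) * Real.exp (37000 * (L * (1 + Real.log L))) := by
        rw [Real.exp_log hK0]
    _ = Real.exp (Real.log K + 37000 * (L * (1 + Real.log L))) := by rw [← Real.exp_add]
    _ ≤ Real.exp (κ * (400000 / ε)) := by
      apply Real.exp_le_exp.2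
      have h1 : κ ≤ κ / ε := by
        rw [le_div_iff₀ hε]; nlinarith
      have h2 : κ * (400000 / ε) = 400000 * (κ / ε) := by ring
      have h3 : 10 * κ / ε = 10 * (κ / ε) := by ring
      rw [h2]
      rw [h3] at hmain
      linarith

/-- polynomial growth -/
theorem arith_growth {D : ℝ} {n : ℕ} (hD : 1 ≤ D) (hDn : D ≤ n) (hn : 2 ≤ n) :
    420 * (1 + Real.log ((n : ℝ) ^ D) / Real.log n) ≤ 840 * D ∧
    (n : ℝ) ^ D * Real.exp (37000 * ((1 + Real.log ((n : ℝ) ^ D) / Real.log n) *
        (1 + Real.log (1 + Real.log ((n : ℝ) ^ D) / Real.log n)))) ≤ (n : ℝ) ^ (250000 * D) := by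
  have hn2 : (2 : ℝ) ≤ n := by exact_mod_cast hn
  have hn0 : (0 : ℝ) < n := by linarith
  have hlog2a : 0.693 < Real.log 2 := by have := Real.log_two_gt_d9; linarith
  have hlogn : Real.log 2 ≤ Real.log n := Real.log_le_log (by norm_num) hn2
  have hlogn0 : 0 < Real.log n := by linarith
  have h1 : Real.log ((n : ℝ) ^ D) / Real.log n = D := by
    rw [Real.log_rpow hn0]; field_simp
  rw [h1]
  refine ⟨by linarith, ?_⟩
  have hlog15 : Real.log 1.5 ≤ 0.5 := by
    have := Real.log_le_sub_one_of_pos (show (0 : ℝ) < 1.5 by norm_num)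
    linarith
  have h2 : Real.log (1 + D) ≤ 0.5 + Real.log n := by
    have h3 : Real.log (1 + D) ≤ Real.log (1.5 * n) := Real.log_le_log (by linarith) (by linarith)
    rw [Real.log_mul (show (1.5 : ℝ) ≠ 0 by norm_num) hn0.ne'] at h3
    linarith
  have h3 : (1 + D) * (1 + Real.log (1 + D)) ≤ 6.4 * D * Real.log n := by
    have h4 : 1 + Real.log (1 + D) ≤ 3.2 * Real.log n := by linarith
    have h5 : 0 ≤ Real.log (1 + D) := Real.log_nonneg (by linarith)
    calc (1 + D) * (1 + Real.log (1 + D)) ≤ (2 * D) * (3.2 * Real.log n) := by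
          gcongr
          linarith
      _ = _ := by ring
  calc (n : ℝ) ^ D * Real.exp (37000 * ((1 + D) * (1 + Real.log (1 + D))))
      = Real.exp (Real.log n * D) * Real.exp (37000 * ((1 + D) * (1 + Real.log (1 + D)))) := by
        rw [Real.rpow_def_of_pos hn0]
    _ = Real.exp (Real.log n * D + 37000 * ((1 + D) * (1 + Real.log (1 + D)))) := by
        rw [← Real.exp_add]
    _ ≤ Real.exp (Real.log n * (250000 * D)) := by
        apply Real.exp_le_exp.2
        have : 0 ≤ D * Real.log n := by positivity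
        nlinarith
    _ = (n : ℝ) ^ (250000 * D) := by rw [Real.rpow_def_of_pos hn0]

end Pool.Agent.E8helper12.PF
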