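import Pool.Agent.E8helper12.PF.Cor

/-!
# The polynomial Freiman-Ruzsa conjecture for sets with small `n`-fold sumset

If `|nA| ≤ K |A|` in a torsion-free abelian group, then `A` is covered by
`K exp (O(L (1 + log L)))` translates of a centred convex progression of dimension `O(L)` and
volume at most `|A|`, where `L = 1 + log K / log n`.
-/

set_option autoImplicit false
open Finset
open scoped Pointwise

namespace Pool.Agent.E8helper12.PF.IteratedSumsets

/-- The `n`-fold sumset `nA = A + ... + A`. -/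
def nfold {Γ : Type*} [AddCommGroup Γ] [DecidableEq Γ] (A : Finset Γ) : ℕ → Finset Γ
  | 0 => {0}
  | n + 1 => nfold A n + A

/-- `A` is covered by at most `N` translates of a centred convex progression of dimension at most
`D` and volume at most `|A|`. -/
def Covered {Γ : Type*} [AddCommGroup Γ] (A : Finset Γ) (D N : ℝ) : Prop :=
  ∃ (d : ℕ) (B : Set (Fin d → ℝ)) (ψ : (Fin d → ℤ) →+ Γ) (T : Finset Γ),
    (d : ℝ) ≤ D ∧
    Convex ℝ B ∧ IsCompact B ∧ (interior B).Nonempty ∧ (∀ x ∈ B, -x ∈ B) ∧
    {x : Fin d → ℤ | (fun i => (x i : ℝ)) ∈ B}.Finite ∧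
    {x : Fin d → ℤ | (fun i => (x i : ℝ)) ∈ B}.ncard ≤ A.card ∧
    (T.card : ℝ) ≤ N ∧
    ∀ a ∈ A, ∃ t ∈ T, ∃ x : Fin d → ℤ, (fun i => (x i : ℝ)) ∈ B ∧ a = t + ψ x

/-- Let `A` be a finite nonempty subset of a torsion-free abelian group and `n ≥ 2`.
(1) If `|nA| ≤ K |A|` then, with `L = 1 + log K / log n`, the set `A` is covered by
`K exp (37000 L (1 + log L))` translates of a centred convex progression of dimension at most
`420 L` and volume at most `|A|`.
(2) If moreover `n ≥ (log 2K) ^ ε` with `0 < ε ≤ 1`, then `(2K) ^ (400000 / ε)` translates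
suffice.
(3) If `|nA| ≤ n ^ D |A|` with `1 ≤ D ≤ n`, then `n ^ (250000 D)` translates of a centred convex
progression of dimension at most `840 D` and volume at most `|A|` suffice. -/
theorem result {Γ : Type*} [AddCommGroup Γ] [DecidableEq Γ]
    (htf : ∀ (m : ℕ) (x : Γ), m ≠ 0 → m • x = 0 → x = 0)
    (n : ℕ) (hn : 2 ≤ n) (A : Finset Γ) (hA : A.Nonempty) :
    (∀ K : ℝ, ((nfold A n).card : ℝ) ≤ K * A.card →
      Covered A (420 * (1 + Real.log K / Real.log n))
        (K * Real.exp (37000 * ((1 + Real.log K / Real.log n) *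
          (1 + Real.log (1 + Real.log K / Real.log n)))))) ∧
    (∀ K ε : ℝ, 0 < ε → ε ≤ 1 → Real.log (2 * K) ^ ε ≤ n →
      ((nfold A n).card : ℝ) ≤ K * A.card →
      Covered A (420 * (1 + Real.log K / Real.log n)) ((2 * K) ^ (400000 / ε))) ∧
    (∀ D : ℝ, 1 ≤ D → D ≤ n → ((nfold A n).card : ℝ) ≤ (n : ℝ) ^ D * A.card →
      Covered A (840 * D) ((n : ℝ) ^ (250000 * D))) := by
  have hfold : ∀ m : ℕ, nfold A m = E8helper12.PF.nfold A m := by
    intro m
    induction m with
    | zero => rfl
    | succ m ih =>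
      show nfold A m + A = E8helper12.PF.nfold A m + A
      rw [ih]
  have h1 : ∀ K : ℝ, ((nfold A n).card : ℝ) ≤ K * A.card →
      Covered A (420 * (1 + Real.log K / Real.log n))
        (K * Real.exp (37000 * ((1 + Real.log K / Real.log n) *
          (1 + Real.log (1 + Real.log K / Real.log n))))) := by
    intro K hK
    rw [hfold] at hK
    exact E8helper12.PF.main htf K n hn A hA hK
  have hmono : ∀ D D' N N' : ℝ, D ≤ D' → N ≤ N' → Covered A D N → Covered A D' N' := by
    rintro D D' N N' hD hN ⟨d, B, ψ, T, g1, g2, g3, g4, g5, g6, g7, g8, g9⟩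
    exact ⟨d, B, ψ, T, g1.trans hD, g2, g3, g4, g5, g6, g7, g8.trans hN, g9⟩
  refine ⟨h1, ?_, ?_⟩
  · intro K ε hε hε1 hnε hK
    have hK1 : 1 ≤ K := by
      have h2 : (A.card : ℝ) ≤ (nfold A n).card := by
        have := E8helper12.PF.nfold_card_mono hA (show 1 ≤ n by omega)
        rw [E8helper12.PF.nfold_one, ← hfold] at this
        exact_mod_cast this
      have hApos : (0 : ℝ) < A.card := by exact_mod_cast hA.card_pos
      by_contra hlt
      push Not at hlt
      have : K * A.card < 1 * A.card := mul_lt_mul_of_pos_right hlt hApos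
      linarith
    exact hmono _ _ _ _ le_rfl (E8helper12.PF.arith_poly hK1 hε hε1 hn hnε) (h1 K hK)
  · intro D hD hDn hK
    obtain ⟨h3, h4⟩ := E8helper12.PF.arith_growth hD hDn hn
    exact hmono _ _ _ _ h3 h4 (h1 _ hK)

end Pool.Agent.E8helper12.PF.IteratedSumsets
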