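import Pool.Agent.H112R2.Final
import Pool.Agent.TH198.DC.Cover

set_option autoImplicit false

/-! Freiman-Ruzsa for sets with a small `n`-fold sumset (helper12). -/

open scoped Pointwise
open Finset

namespace Pool.Agent.E8helper12.PF

/-- the `n`-fold sumset `A + ... + A` (`{0}` for `n = 0`) -/
def nfold {Γ : Type*} [AddCommGroup Γ] [DecidableEq Γ] (A : Finset Γ) : ℕ → Finset Γ
  | 0 => {0}
  | n + 1 => nfold A n + A

variable {Γ : Type*} [AddCommGroup Γ] [DecidableEq Γ]

theorem nfold_one (A : Finset Γ) : nfold A 1 = A := by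
  show ({0} : Finset Γ) + A = A
  rw [← Finset.coe_inj]
  simp

theorem nfold_add (A : Finset Γ) (a b : ℕ) : nfold A (a + b) = nfold A a + nfold A b := by
  induction b with
  | zero =>
    show nfold A a = nfold A a + ({0} : Finset Γ)
    rw [← Finset.coe_inj]
    simp
  | succ b ih =>
    show nfold A (a + b) + A = nfold A a + (nfold A b + A)
    rw [ih, add_assoc]

theorem nfold_nonempty {A : Finset Γ} (hA : A.Nonempty) (a : ℕ) : (nfold A a).Nonempty := by
  induction a with
  | zero => exact ⟨0, Finset.mem_singleton_self 0⟩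
  | succ a ih => exact ih.add hA

theorem nfold_card_mono {A : Finset Γ} (hA : A.Nonempty) {a b : ℕ} (h : a ≤ b) :
    (nfold A a).card ≤ (nfold A b).card := by
  induction b, h using Nat.le_induction with
  | base => exact le_rfl
  | succ b _ ih => exact ih.trans (Finset.card_le_card_add_right hA)

theorem nfold_mem {A : Finset Γ} {a₀ a : Γ} (ha₀ : a₀ ∈ A) (ha : a ∈ A) (k : ℕ) :
    k • a₀ + a ∈ nfold A (k + 1) := by
  induction k with
  | zero =>
    rw [zero_add, nfold_one, zero_nsmul, zero_add]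
    exact ha
  | succ k ih =>
    have h1 := Finset.add_mem_add ih ha₀
    have h2 : (k + 1) • a₀ + a = k • a₀ + a + a₀ := by
      rw [succ_nsmul]; abel
    rw [h2]
    exact h1

/-- a good scale -/
theorem exists_scale {A : Finset Γ} {K c : ℝ} {m : ℕ} (hm : 1 ≤ m) (hc : 0 < c)
    (hcm : c ^ m = K) (hK : ((nfold A (2 ^ m)).card : ℝ) ≤ K * A.card) :
    ∃ j < m, ((nfold A (2 ^ j) + nfold A (2 ^ j)).card : ℝ) ≤ c * (nfold A (2 ^ j)).card := by
  by_contra hcon
  push Not at hcon
  have h1 : ∀ j < m, c * (nfold A (2 ^ j)).card < ((nfold A (2 ^ (j + 1))).card : ℝ) := by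
    intro j hj
    have h2 := hcon j hj
    rw [← nfold_add, ← two_mul, ← pow_succ'] at h2
    exact h2
  have h2 : ∀ j ≤ m, c ^ j * A.card ≤ ((nfold A (2 ^ j)).card : ℝ) := by
    intro j
    induction j with
    | zero =>
      intro _
      rw [pow_zero, pow_zero, nfold_one, one_mul]
    | succ j ih =>
      intro hj
      have h3 := ih (by omega)
      have h4 := h1 j (by omega)
      calc c ^ (j + 1) * A.card = c * (c ^ j * A.card) := by ring
        _ ≤ c * (nfold A (2 ^ j)).card := by gcongr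
        _ ≤ _ := h4.le
  obtain ⟨i, rfl⟩ : ∃ i, m = i + 1 := ⟨m - 1, by omega⟩
  have h3 := h2 i (by omega)
  have h4 := h1 i (by omega)
  have h5 : K * A.card < ((nfold A (2 ^ (i + 1))).card : ℝ) := by
    calc K * A.card = c * (c ^ i * A.card) := by rw [← hcm]; ring
      _ ≤ c * (nfold A (2 ^ i)).card := by gcongr
      _ < _ := h4
  linarith

open Pool.Agent.TH198.DC in
theorem main (htf : ∀ (m : ℕ) (x : Γ), m ≠ 0 → m • x = 0 → x = 0) (K : ℝ) (n : ℕ) (hn : 2 ≤ n)
    (A : Finset Γ) (hA : A.Nonempty) (hK : ((nfold A n).card : ℝ) ≤ K * A.card) :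
    ∃ (d : ℕ) (B : Set (Fin d → ℝ)) (ψ : (Fin d → ℤ) →+ Γ) (T : Finset Γ),
      (d : ℝ) ≤ 420 * (1 + Real.log K / Real.log n) ∧
      Convex ℝ B ∧ IsCompact B ∧ (interior B).Nonempty ∧ (∀ x ∈ B, -x ∈ B) ∧
      {x : Fin d → ℤ | (fun i => (x i : ℝ)) ∈ B}.Finite ∧
      {x : Fin d → ℤ | (fun i => (x i : ℝ)) ∈ B}.ncard ≤ A.card ∧
      (T.card : ℝ) ≤ K * Real.exp (37000 * ((1 + Real.log K / Real.log n) *
        (1 + Real.log (1 + Real.log K / Real.log n)))) ∧
      ∀ a ∈ A, ∃ t ∈ T, ∃ x : Fin d → ℤ, (fun i => (x i : ℝ)) ∈ B ∧ a = t + ψ x := by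
  classical
  have hApos : (0 : ℝ) < A.card := by exact_mod_cast hA.card_pos
  have hK1 : 1 ≤ K := by
    have h1 : (A.card : ℝ) ≤ (nfold A n).card := by
      have := nfold_card_mono hA (show 1 ≤ n by omega)
      rw [nfold_one] at this
      exact_mod_cast this
    by_contra hlt
    push Not at hlt
    have : K * A.card < 1 * A.card := mul_lt_mul_of_pos_right hlt hApos
    linarith
  have hK0 : 0 < K := by linarith
  -- the scale
  obtain ⟨m, hm⟩ : ∃ m, m = Nat.log 2 n := ⟨_, rfl⟩
  have hm1 : 1 ≤ m := by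
    rw [hm]; exact Nat.log_pos (by norm_num) hn
  have hmn : 2 ^ m ≤ n := by
    rw [hm]; exact Nat.pow_log_le_self 2 (by omega)
  have hnm : n < 2 ^ (m + 1) := by
    rw [hm]; exact Nat.lt_pow_succ_log_self (by norm_num) n
  have hmR : (1 : ℝ) ≤ m := by exact_mod_cast hm1
  obtain ⟨c, hc⟩ : ∃ c : ℝ, c = K ^ (1 / (m : ℝ)) := ⟨_, rfl⟩
  have hc0 : 0 < c := by rw [hc]; positivity
  have hcm : c ^ m = K := by
    rw [hc, ← Real.rpow_natCast, ← Real.rpow_mul hK0.le]
    rw [one_div_mul_cancel (by positivity), Real.rpow_one]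
  have hlogc : Real.log c = Real.log K / m := by
    rw [hc, Real.log_rpow hK0]; ring
  have hK' : ((nfold A (2 ^ m)).card : ℝ) ≤ K * A.card := by
    refine le_trans ?_ hK
    exact_mod_cast nfold_card_mono hA hmn
  obtain ⟨j, hj, hjc⟩ := exists_scale hm1 hc0 hcm hK'
  -- logarithms
  obtain ⟨L, hL⟩ : ∃ L : ℝ, L = 1 + Real.log K / Real.log n := ⟨_, rfl⟩
  rw [← hL]
  have hlogK : 0 ≤ Real.log K := Real.log_nonneg hK1
  have hn2 : (2 : ℝ) ≤ n := by exact_mod_cast hn
  have hlog2 : 0 < Real.log 2 := Real.log_pos (by norm_num)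
  have hlog2' : Real.log 2 < 0.6931471808 := Real.log_two_lt_d9
  have hlogn : Real.log 2 ≤ Real.log n := Real.log_le_log (by norm_num) hn2
  have hlogn0 : 0 < Real.log n := by linarith
  have hL1 : 1 ≤ L := by
    rw [hL]
    have : 0 ≤ Real.log K / Real.log n := div_nonneg hlogK hlogn0.le
    linarith
  have hlognm : Real.log n ≤ 2 * m * Real.log 2 := by
    have h1 : (n : ℝ) ≤ 2 ^ (m + 1) := by exact_mod_cast hnm.le
    have h2 : Real.log n ≤ Real.log (2 ^ (m + 1)) := Real.log_le_log (by linarith) h1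
    rw [Real.log_pow] at h2
    push_cast at h2
    nlinarith
  have hdiv : Real.log K / m ≤ 1.4 * (Real.log K / Real.log n) := by
    rw [div_le_iff₀ (by positivity)]
    have h1 : Real.log K ≤ Real.log K / Real.log n * (2 * m * Real.log 2) := by
      calc Real.log K = Real.log K / Real.log n * Real.log n := by field_simp
        _ ≤ _ := by gcongr
    have h2 : 0 ≤ Real.log K / Real.log n := by positivity
    have h3 : (2 * m * Real.log 2) ≤ 1.4 * m := by nlinarith
    calc Real.log K ≤ Real.log K / Real.log n * (2 * m * Real.log 2) := h1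
      _ ≤ Real.log K / Real.log n * (1.4 * m) := by gcongr
      _ = _ := by ring
  have hlam : Real.log (2 * c) ≤ 1.4 * L := by
    rw [Real.log_mul (by norm_num) hc0.ne', hlogc, hL]
    linarith
  -- Freiman-Ruzsa at the scale
  obtain ⟨d, B, ψ, H₀, T, hd, hB, hH₀, hvol, hT, hcov⟩ := H112.near_pfr (nfold_nonempty hA (2 ^ j)) hjc
  have hc1 : 1 ≤ c := by
    rw [hc]; exact Real.one_le_rpow hK1 (by positivity)
  have hlam0 : 0 ≤ Real.log (2 * c) := Real.log_nonneg (by linarith)
  have hHbot : ∀ h ∈ H₀, h = 0 := by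
    intro h hh
    have h1 : Nat.card H₀ • (⟨h, hh⟩ : H₀) = 0 := card_nsmul_eq_zero'
    have h2 : Nat.card H₀ • h = 0 := by
      have h3 := congrArg H₀.subtype h1
      rw [map_nsmul, map_zero] at h3
      exact h3
    exact htf _ h Nat.card_pos.ne' h2
  have hHcard : Nat.card H₀ = 1 := by
    rw [Nat.card_eq_one_iff_unique]
    refine ⟨⟨fun a b => Subtype.ext ?_⟩, ⟨0⟩⟩
    rw [hHbot a.1 a.2, hHbot b.1 b.2]
  rw [hHcard, mul_one] at hvol
  have hSB : SB B := ⟨hB.1, hB.2.1, hB.2.2.1, hB.2.2.2⟩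
  have hvol' : (((LP B).ncard : ℕ) : ℝ) ≤ K * A.card := by
    have h1 : (LP B).ncard ≤ (nfold A (2 ^ j)).card := hvol
    have h2 : (nfold A (2 ^ j)).card ≤ (nfold A n).card :=
      nfold_card_mono hA ((Nat.pow_le_pow_right (by norm_num) hj.le).trans hmn)
    calc (((LP B).ncard : ℕ) : ℝ) ≤ ((nfold A n).card : ℝ) := by exact_mod_cast h1.trans h2
      _ ≤ _ := hK
  obtain ⟨B', hB', hB'c, X, hX, hXcov⟩ := hSB.shrink (N := A.card) hA.card_pos
  have hXr : (X.card : ℝ) ≤ 625 ^ d * K := by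
    have h1 : ((X.card * A.card : ℕ) : ℝ) ≤ ((625 ^ d * max A.card (LP B).ncard : ℕ) : ℝ) := by
      exact_mod_cast hX
    push_cast at h1
    have h2 : (max (A.card : ℝ) ((LP B).ncard : ℝ)) ≤ K * A.card := max_le (by nlinarith) hvol'
    have h3 : (X.card : ℝ) * A.card ≤ (625 ^ d * K) * A.card := by
      calc (X.card : ℝ) * A.card ≤ 625 ^ d * max (A.card : ℝ) ((LP B).ncard : ℝ) := h1
        _ ≤ 625 ^ d * (K * A.card) := by gcongr
        _ = _ := by ring
    exact le_of_mul_le_mul_right h3 hApos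
  have hdL : (d : ℝ) ≤ 420 * L := by linarith
  obtain ⟨a₀, ha₀⟩ := hA
  obtain ⟨k, hk⟩ : ∃ k, 2 ^ j = k + 1 := ⟨2 ^ j - 1, by have := Nat.one_le_two_pow (n := j); omega⟩
  refine ⟨d, B', ψ, (T ×ˢ X).image (fun p => p.1 + ψ p.2 - k • a₀), hdL, hB'.conv, hB'.comp,
    hB'.inter, hB'.symm, LP_finite hB'.comp.isBounded, hB'c, ?_, ?_⟩
  · -- the number of translates
    have hcard : (((T ×ˢ X).image (fun p => p.1 + ψ p.2 - k • a₀)).card : ℝ) ≤ T.card * X.card := by
      have h1 := Finset.card_image_le (s := T ×ˢ X) (f := fun p => p.1 + ψ p.2 - k • a₀)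
      rw [Finset.card_product] at h1
      exact_mod_cast h1
    have hlogL : 0 ≤ Real.log L := Real.log_nonneg hL1
    have hTr : (T.card : ℝ) ≤ Real.exp (34220 * (L * (1 + Real.log L))) := by
      refine hT.trans ?_
      rw [Real.rpow_def_of_pos (by linarith)]
      apply Real.exp_le_exp.2
      have h1 : Real.log (1 + Real.log (2 * c)) ≤ 0.88 + Real.log L := by
        have h2 : 1 + Real.log (2 * c) ≤ 2.4 * L := by linarith
        have h3 : Real.log (1 + Real.log (2 * c)) ≤ Real.log (2.4 * L) :=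
          Real.log_le_log (by linarith) h2
        rw [Real.log_mul (show (2.4 : ℝ) ≠ 0 by norm_num) (show L ≠ 0 by linarith)] at h3
        have h4 : Real.log (2.4 : ℝ) ≤ 0.88 := by
          rw [Real.log_le_iff_le_exp (by norm_num)]
          have h5 : (2.7182818283 : ℝ) < Real.exp 1 := Real.exp_one_gt_d9
          have h6 : Real.exp (0.88 : ℝ) ^ 25 = Real.exp 1 ^ 22 := by
            rw [← Real.exp_nat_mul, ← Real.exp_nat_mul]; norm_num
          have h7 : (2.4 : ℝ) ^ 25 ≤ Real.exp 1 ^ 22 := by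
            calc (2.4 : ℝ) ^ 25 ≤ 2.718 ^ 22 := by norm_num
              _ ≤ Real.exp 1 ^ 22 := by
                apply pow_le_pow_left₀ (by norm_num); linarith
          rw [← h6] at h7
          exact le_of_pow_le_pow_left₀ (by norm_num) (Real.exp_pos _).le h7
        linarith
      have h8 : 0 ≤ Real.log (1 + Real.log (2 * c)) := Real.log_nonneg (by linarith)
      calc Real.log (2 * c) * (13000 * (1 + Real.log (1 + Real.log (2 * c))))
          ≤ (1.4 * L) * (13000 * (1 + (0.88 + Real.log L))) := by gcongr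
        _ ≤ 34220 * (L * (1 + Real.log L)) := by nlinarith [mul_nonneg (show 0 ≤ L by linarith) hlogL]
    have hXe : (X.card : ℝ) ≤ K * Real.exp (2730 * L) := by
      refine hXr.trans ?_
      have h1 : (625 : ℝ) ^ d ≤ Real.exp (2730 * L) := by
        have h2 : (625 : ℝ) ≤ Real.exp 6.5 := by
          have h5 : (2.7182818283 : ℝ) < Real.exp 1 := Real.exp_one_gt_d9
          have h6 : Real.exp (6.5 : ℝ) ^ 2 = Real.exp 1 ^ 13 := by
            rw [← Real.exp_nat_mul, ← Real.exp_nat_mul]; norm_num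
          have h7 : (625 : ℝ) ^ 2 ≤ Real.exp 1 ^ 13 := by
            calc (625 : ℝ) ^ 2 ≤ 2.718 ^ 13 := by norm_num
              _ ≤ Real.exp 1 ^ 13 := by
                apply pow_le_pow_left₀ (by norm_num); linarith
          rw [← h6] at h7
          exact le_of_pow_le_pow_left₀ (by norm_num) (Real.exp_pos _).le h7
        calc (625 : ℝ) ^ d ≤ Real.exp 6.5 ^ d := pow_le_pow_left₀ (by norm_num) h2 d
          _ = Real.exp (d * 6.5) := by rw [← Real.exp_nat_mul]
          _ ≤ Real.exp (2730 * L) := by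
            apply Real.exp_le_exp.2
            linarith
      calc (625 : ℝ) ^ d * K ≤ Real.exp (2730 * L) * K := by gcongr
        _ = _ := by ring
    calc (((T ×ˢ X).image (fun p => p.1 + ψ p.2 - k • a₀)).card : ℝ) ≤ T.card * X.card := hcard
      _ ≤ Real.exp (34220 * (L * (1 + Real.log L))) * (K * Real.exp (2730 * L)) := by gcongr
      _ = K * Real.exp (34220 * (L * (1 + Real.log L)) + 2730 * L) := by
        rw [Real.exp_add]; ring
      _ ≤ K * Real.exp (37000 * (L * (1 + Real.log L))) := by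
        gcongr
        nlinarith [mul_nonneg (show 0 ≤ L by linarith) hlogL]
  · intro a ha
    have h1 := nfold_mem ha₀ ha k
    rw [← hk] at h1
    obtain ⟨t, ht, x, hx, h, hh, e⟩ := hcov _ h1
    have hx2 : x ∈ LP ((2 : ℝ) • B) := by
      show rv x ∈ (2 : ℝ) • B
      have h3 : rv x ∈ (1 : ℝ) • B := by rw [one_smul]; exact hx
      exact hSB.smul_subset (by norm_num) (by norm_num) h3
    obtain ⟨y, hy, w, hw, rfl⟩ := hXcov x hx2
    refine ⟨t + ψ y - k • a₀, Finset.mem_image.2 ⟨(t, y), Finset.mk_mem_product ht hy, rfl⟩, w, hw, ?_⟩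
    rw [hHbot h hh, add_zero, map_add] at e
    have h4 : a = (k • a₀ + a) - k • a₀ := by abel
    rw [h4, e]
    abel

end Pool.Agent.E8helper12.PF
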